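import Mathlib
import Pool.Agent.LeoD.QuarStmts

/-!
# Squad LEOD, module QSQ: quadratic subfields of totally real quartic fields
-/

set_option autoImplicit false

open NumberField NumberField.InfinitePlace NumberField.mixedEmbedding IsDedekindDomain Module
  MeasureTheory Filter Topology

open scoped Classical

namespace Pool.Agent.LeoD.H20

open Pool.Agent.LeoD

variable {K k : IntermediateField ℚ (AlgebraicClosure ℚ)}

theorem numberField_of_le (h : k ≤ K) (hK : NumberField K) : NumberField k := by
  have : FiniteDimensional ℚ K := hK.to_finiteDimensional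
  have h1 : FiniteDimensional ℚ k :=
    FiniteDimensional.of_injective (IntermediateField.inclusion h).toLinearMap
      (IntermediateField.inclusion h).injective
  exact @NumberField.mk k _ inferInstance h1

/-- The square of the discriminant of a subfield of index two. -/
theorem sq_discr_le (h : k ≤ K) (hK : NumberField K) (hk : NumberField k) (h4 : finrank ℚ K = 4)
    (h2 : finrank ℚ k = 2) : (discr k).natAbs ^ 2 ≤ (discr K).natAbs := by
  let _ : Algebra k K := (IntermediateField.inclusion h).toRingHom.toAlgebra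
  have : IsScalarTower ℚ k K := IsScalarTower.of_algebraMap_eq' rfl
  have h5 : finrank ℚ k * finrank k K = finrank ℚ K := Module.finrank_mul_finrank ℚ k K
  have h6 : finrank k K = 2 := by
    rw [h4, h2] at h5
    omega
  have h7 := natAbs_discr_eq_absNorm_differentIdeal_mul_natAbs_discr_pow k (𝓞 k) K (𝓞 K)
  rw [h6] at h7
  have h8 : 0 < (discr K).natAbs := Int.natAbs_pos.2 (discr_ne_zero K)
  have h9 : 0 < Ideal.absNorm (differentIdeal (𝓞 k) (𝓞 K)) := by
    rcases Nat.eq_zero_or_pos (Ideal.absNorm (differentIdeal (𝓞 k) (𝓞 K))) with h0 | h0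
    · rw [h0, zero_mul] at h7
      omega
    · exact h0
  rw [h7]
  exact Nat.le_mul_of_pos_left _ h9

theorem totallyReal_of_le (h : k ≤ K) (hK : NumberField K) (hk : NumberField k)
    (hr : IsTotallyReal K) : IsTotallyReal k := by
  let _ : Algebra k K := (IntermediateField.inclusion h).toRingHom.toAlgebra
  have : IsScalarTower ℚ k K := IsScalarTower.of_algebraMap_eq' rfl
  have : Algebra.IsAlgebraic k K := Algebra.IsAlgebraic.tower_top (K := ℚ) k
  have : FiniteDimensional ℚ k := hk.to_finiteDimensional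
  exact IsTotallyReal.of_algebra k K

theorem sup_eq (hK : NumberField K) (h4 : finrank ℚ K = 4)
    {k k' : IntermediateField ℚ (AlgebraicClosure ℚ)} (h : k ≤ K) (h' : k' ≤ K)
    (h2 : finrank ℚ k = 2) (h2' : finrank ℚ k' = 2) (hne : k ≠ k') : k ⊔ k' = K := by
  have : FiniteDimensional ℚ K := hK.to_finiteDimensional
  have hle : k ⊔ k' ≤ K := sup_le h h'
  have : FiniteDimensional ℚ (k ⊔ k' : IntermediateField ℚ (AlgebraicClosure ℚ)) :=
    (numberField_of_le hle hK).to_finiteDimensional
  have hd1 : finrank ℚ k ∣ finrank ℚ (k ⊔ k' : IntermediateField ℚ (AlgebraicClosure ℚ)) :=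
    IntermediateField.finrank_dvd_of_le_right le_sup_left
  have hd2 : finrank ℚ (k ⊔ k' : IntermediateField ℚ (AlgebraicClosure ℚ)) ∣ finrank ℚ K :=
    IntermediateField.finrank_dvd_of_le_right hle
  have hn : finrank ℚ (k ⊔ k' : IntermediateField ℚ (AlgebraicClosure ℚ)) ≠ 2 := by
    intro h0
    have e1 : k = k ⊔ k' := IntermediateField.eq_of_le_of_finrank_eq le_sup_left (by rw [h2, h0])
    have e2 : k' = k ⊔ k' := IntermediateField.eq_of_le_of_finrank_eq le_sup_right
      (by rw [h2', h0])
    exact hne (e1.trans e2.symm)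
  rw [h2] at hd1
  rw [h4] at hd2
  have h6 : finrank ℚ (k ⊔ k' : IntermediateField ℚ (AlgebraicClosure ℚ)) = 4 := by
    have h7 := Nat.le_of_dvd (by norm_num) hd2
    interval_cases (finrank ℚ (k ⊔ k' : IntermediateField ℚ (AlgebraicClosure ℚ))) <;> omega
  exact IntermediateField.eq_of_le_of_finrank_eq hle (by rw [h6, h4])

theorem qsq : QsqStmt := by
  intro X K hK
  obtain ⟨hN, h4, hr, hX, -⟩ := hK
  refine ⟨fun k hk h2 => ?_, fun k k' hk hk' h2 h2' hne => sup_eq hN h4 hk hk' h2 h2' hne⟩
  have hkN := numberField_of_le hk hN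
  refine ⟨hkN, totallyReal_of_le hk hN hkN hr, ?_⟩
  have h1 := sq_discr_le hk hN hkN h4 h2
  have h2 : (((discr k).natAbs ^ 2 : ℕ) : ℝ) ≤ ((discr K).natAbs : ℝ) := by exact_mod_cast h1
  push_cast at h2 ⊢
  exact le_trans h2 (by simpa using hX)

end Pool.Agent.LeoD.H20
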